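import Mathlib

set_option autoImplicit false
open Set Function Topology Filter TopologicalSpace unitInterval

namespace Pool.Agent.H.MP_a58584

lemma close {B : Type} (h : Finset B → Set B) (hc : ∀ R, (h R).Countable) :
    ∃ S : Set B, S.Countable ∧ ∀ R : Finset B, ↑R ⊆ S → h R ⊆ S := by
  let g : Set B → Set B := fun S => S ∪ ⋃ R ∈ {R : Finset B | ↑R ⊆ S}, h R
  have hg : ∀ S : Set B, S.Countable → (g S).Countable := fun S hS => by
    refine hS.union (Set.Countable.biUnion ?_ fun R _ => hc R)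
    refine ((countable_ofPred_finite_subset hS).preimage_of_injOn
      (f := fun R : Finset B => (R : Set B)) (Finset.coe_injective.injOn)).mono fun R hR => ?_
    exact ⟨R.finite_toSet, hR⟩
  let T : ℕ → Set B := fun k => g^[k] ∅
  have hT : ∀ k, T (k + 1) = g (T k) := fun k => iterate_succ_apply' g k _
  have hm : Monotone T := monotone_nat_of_le_succ fun k => by rw [hT]; exact subset_union_left
  refine ⟨⋃ k, T k, countable_iUnion fun k => ?_, fun R hR => ?_⟩
  · induction k with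
    | zero => exact countable_empty
    | succ k ih => rw [hT]; exact hg _ ih
  · obtain ⟨k, hk⟩ := hm.directed_le.exists_mem_subset_of_finset_subset_biUnion hR
    refine Subset.trans ?_ (subset_iUnion T (k + 1))
    rw [hT]
    exact fun b hb => Or.inr (mem_iUnion₂.2 ⟨R, hk, hb⟩)

lemma box {B : Type} {O : Set (B → I)} (hO : IsOpen O) {y : B → I} (hy : y ∈ O) :
    ∃ (F : Finset B) (u : B → Set I), (∀ β, IsOpen (u β) ∧ y β ∈ u β) ∧
      ∀ z : B → I, (∀ β ∈ F, z β ∈ u β) → z ∈ O := by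
  classical
  obtain ⟨F, u, h1, h2⟩ := isOpen_pi_iff.1 hO y hy
  refine ⟨F, fun β => if β ∈ F then u β else univ, fun β => ?_, fun z hz => h2 fun β hβ => ?_⟩
  · by_cases h : β ∈ F
    · simpa [h] using h1 β h
    · simp [h]
  · simpa [Finset.mem_coe.1 hβ] using hz β hβ

lemma delta {B P C : Type} [Countable C] (O O' : P → Set (B → I)) (c : P → C)
    (hO : ∀ p, IsOpen (O p)) (hO' : ∀ p, IsOpen (O' p)) (hd : ∀ p, Disjoint (O p) (O' p))
    (H : ∀ S : Set B, S.Countable → ∃ p y y', y ∈ O p ∧ y' ∈ O' p ∧ ∀ β ∈ S, y β = y' β)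
    (A : Type) (hA : Cardinal.mk A ≤ Cardinal.aleph 1) :
    ∃ (p : A → P) (k : C) (q : (A → I) → B → I), Continuous q ∧ ∀ α, c (p α) = k ∧
      ∀ t, (t α = 0 → q t ∈ O (p α)) ∧ (t α = 1 → q t ∈ O' (p α)) := by
  classical
  let ok : Finset B → (B → I) → C → P × Finset B × (B → I) × (B → I) → Prop := fun R b k τ =>
    c τ.1 = k ∧ Disjoint τ.2.1 R ∧
    (∀ z : B → I, (∀ β ∈ R, z β = b β) → (∀ β ∈ τ.2.1, z β = τ.2.2.1 β) → z ∈ O τ.1) ∧
    (∀ z : B → I, (∀ β ∈ R, z β = b β) → (∀ β ∈ τ.2.1, z β = τ.2.2.2 β) → z ∈ O' τ.1)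
  have hM : ∀ R b k, ∃ M, Maximal (· ∈ {M : Set (P × Finset B × (B → I) × (B → I)) |
      (∀ τ ∈ M, ok R b k τ) ∧ M.Pairwise fun τ ρ => Disjoint τ.2.1 ρ.2.1}) M := by
    intro R b k
    refine zorn_subset _ fun 𝒞 h1 h2 => ⟨⋃₀ 𝒞, ⟨?_, ?_⟩, fun s hs => subset_sUnion_of_mem hs⟩
    · rintro τ ⟨M, hM, hτ⟩
      exact (h1 hM).1 τ hτ
    · exact (pairwise_sUnion h2.directedOn).2 fun M hM => (h1 hM).2
  choose M hM using hM
  by_cases hc : ∀ R b k, (M R b k).Countable
  · exfalso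
    let bb : (R : Finset B) → (R → ℕ) → B → I := fun R n β =>
      if h : β ∈ R then denseSeq I (n ⟨β, h⟩) else 0
    obtain ⟨S, hS, hS'⟩ := close (fun R => ⋃ n, ⋃ k, ⋃ τ ∈ M R (bb R n) k, (τ.2.1 : Set B))
      fun R => countable_iUnion fun n => countable_iUnion fun k =>
        (hc _ _ _).biUnion fun τ _ => τ.2.1.countable_toSet
    obtain ⟨p, y, y', hy, hy', e⟩ := H S hS
    obtain ⟨F, u, h1, h2⟩ := box (hO p) hy
    obtain ⟨F', u', h1', h2'⟩ := box (hO' p) hy'
    let R := (F ∪ F').filter (· ∈ S)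
    let E := (F ∪ F').filter (· ∉ S)
    have : ∀ β : R, ∃ n, denseSeq I n ∈ u β ∩ u' β := fun β =>
      (denseRange_denseSeq I).exists_mem_open ((h1 β).1.inter (h1' β).1)
        ⟨y β, (h1 β).2, e β (Finset.mem_filter.1 β.2).2 ▸ (h1' β).2⟩
    choose n hn using this
    have hb : ∀ β ∈ R, bb R n β ∈ u β ∩ u' β := fun β hβ => by
      simpa only [bb, dif_pos hβ] using hn ⟨β, hβ⟩
    have hok : ok R (bb R n) (c p) (p, E, y, y') := by
      refine ⟨rfl, Finset.disjoint_left.2 fun β h h' => (Finset.mem_filter.1 h).2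
        (Finset.mem_filter.1 h').2, fun z z1 z2 => h2 z fun β hβ => ?_,
        fun z z1 z2 => h2' z fun β hβ => ?_⟩
      · by_cases h : β ∈ S
        · have : β ∈ R := Finset.mem_filter.2 ⟨Finset.mem_union_left _ hβ, h⟩
          exact z1 β this ▸ (hb β this).1
        · exact z2 β (Finset.mem_filter.2 ⟨Finset.mem_union_left _ hβ, h⟩) ▸ (h1 β).2
      · by_cases h : β ∈ S
        · have : β ∈ R := Finset.mem_filter.2 ⟨Finset.mem_union_right _ hβ, h⟩
          exact z1 β this ▸ (hb β this).2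
        · exact z2 β (Finset.mem_filter.2 ⟨Finset.mem_union_right _ hβ, h⟩) ▸ (h1' β).2
    have hs : ∀ τ ∈ M R (bb R n) (c p), ∀ β ∈ τ.2.1, β ∉ E := fun τ hτ β hβ h =>
      (Finset.mem_filter.1 h).2 (hS' R (fun β hβ => (Finset.mem_filter.1 hβ).2)
        (mem_iUnion.2 ⟨n, mem_iUnion.2 ⟨c p, mem_iUnion₂.2 ⟨τ, hτ, hβ⟩⟩⟩))
    have hm := hM R (bb R n) (c p)
    have : (p, E, y, y') ∈ M R (bb R n) (c p) := by
      refine hm.2 (y := insert (p, E, y, y') (M R (bb R n) (c p))) ⟨?_, ?_⟩ (subset_insert _ _)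
        (mem_insert _ _)
      · rintro τ (rfl | hτ)
        · exact hok
        · exact hm.1.1 τ hτ
      · refine hm.1.2.insert fun τ hτ _ => ?_
        have := Finset.disjoint_left.2 (hs τ hτ)
        exact ⟨this.symm, this⟩
    have hE : ∀ β, β ∉ E := fun β h => hs _ this β h h
    exact Set.disjoint_left.1 (hd p) (hok.2.2.1 (bb R n) (fun _ _ => rfl) fun β h => (hE β h).elim)
      (hok.2.2.2 (bb R n) (fun _ _ => rfl) fun β h => (hE β h).elim)
  · push Not at hc
    obtain ⟨R, b, k, hc⟩ := hc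
    have : Cardinal.mk A ≤ Cardinal.mk (M R b k) := by
      refine hA.trans ?_
      rw [← Cardinal.succ_aleph0, Order.succ_le_iff, ← not_le, Cardinal.le_aleph0_iff_set_countable]
      exact hc
    obtain ⟨τ⟩ := this
    have hm := (hM R b k).1
    let q : (A → I) → B → I := fun t β => if h : ∃ α, β ∈ (τ α).1.2.1 then
      Icc.convexComb ((τ h.choose).1.2.2.1 β) ((τ h.choose).1.2.2.2 β) (t h.choose) else b β
    have q1 : ∀ t, ∀ β ∈ R, q t β = b β := fun t β hβ => dif_neg fun ⟨α, hα⟩ =>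
      Finset.disjoint_left.1 (hm.1 _ (τ α).2).2.1 hα hβ
    have q2 : ∀ t α, ∀ β ∈ (τ α).1.2.1,
        q t β = Icc.convexComb ((τ α).1.2.2.1 β) ((τ α).1.2.2.2 β) (t α) := fun t α β hβ => by
      have h : ∃ α, β ∈ (τ α).1.2.1 := ⟨α, hβ⟩
      have : h.choose = α := by
        by_contra hn
        exact Finset.disjoint_left.1 (hm.2 (τ _).2 (τ α).2 fun e => hn (τ.injective
          (Subtype.ext e))) h.choose_spec hβ
      simp only [q, dif_pos h, this]
    refine ⟨fun α => (τ α).1.1, k, q, continuous_pi fun β => ?_, fun α => ⟨(hm.1 _ (τ α).2).1,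
      fun t => ⟨fun h => (hm.1 _ (τ α).2).2.2.1 _ (q1 t) fun β hβ => ?_,
        fun h => (hm.1 _ (τ α).2).2.2.2 _ (q1 t) fun β hβ => ?_⟩⟩⟩
    · by_cases h : ∃ α, β ∈ (τ α).1.2.1
      · simp only [q, dif_pos h]
        exact (Icc.continuous_convexComb _ _).comp (continuous_apply _)
      · simp only [q, dif_neg h]
        exact continuous_const
    · rw [q2 t α β hβ, h, Icc.convexComb_zero]
    · rw [q2 t α β hβ, h, Icc.convexComb_one]

lemma bock {A : Type} {U : Set (A → I)} (hU : IsOpen U) {t : A → I} (ht : t ∈ closure U) :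
    ∃ S : Set A, S.Countable ∧ ∀ t' : A → I, (∀ α ∈ S, t' α = t α) → t' ∈ closure U := by
  classical
  have : ∀ (F : Finset A) (k : ℕ), ∃ (u : A → I) (F' : Finset A),
      (∀ α ∈ F, dist (u α) (t α) < 1 / (k + 1)) ∧ ∀ z : A → I, (∀ α ∈ F', z α = u α) → z ∈ U := by
    intro F k
    obtain ⟨u, h1, h2⟩ := mem_closure_iff.1 ht (⋂ α ∈ F, {u | dist (u α) (t α) < 1 / (k + 1)})
      (isOpen_biInter_finset fun α _ => isOpen_lt (by fun_prop) continuous_const)
      (mem_iInter₂.2 fun α _ => by simpa using Nat.cast_add_one_pos (α := ℝ) k)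
    obtain ⟨F', v, h3, h4⟩ := box hU h2
    exact ⟨u, F', fun α hα => mem_iInter₂.1 h1 α hα, fun z hz => h4 z fun β hβ => hz β hβ ▸ (h3 β).2⟩
  choose u F' h1 h2 using this
  obtain ⟨S, hS, hS'⟩ := close (fun F => ⋃ k, (F' F k : Set A))
    fun F => countable_iUnion fun k => (F' F k).countable_toSet
  refine ⟨S, hS, fun t' ht' => ?_⟩
  refine mem_closure_of_tendsto (b := (atTop : Filter (Finset A × ℕ)))
    (f := fun z => S.piecewise (u (z.1.filter (· ∈ S)) z.2) t') (tendsto_pi_nhds.2 fun α => ?_)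
    (Eventually.of_forall fun z => h2 _ _ _ fun α hα => piecewise_eq_of_mem _ _ _
      (hS' _ (fun β hβ => (Finset.mem_filter.1 hβ).2) (mem_iUnion.2 ⟨_, hα⟩)))
  by_cases h : α ∈ S
  · simp only [piecewise_eq_of_mem _ _ _ h, ht' α h]
    rw [tendsto_iff_dist_tendsto_zero]
    refine squeeze_zero' (g := fun z => 1 / ((z.2 : ℝ) + 1)) (Eventually.of_forall fun _ =>
      dist_nonneg) ?_ (tendsto_one_div_add_atTop_nhds_zero_nat.comp ?_)
    · filter_upwards [eventually_ge_atTop (({α}, 0) : Finset A × ℕ)] with z hz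
      exact (h1 _ _ α (Finset.mem_filter.2 ⟨hz.1 (Finset.mem_singleton_self α), h⟩)).le
    · rw [← prod_atTop_atTop_eq]
      exact tendsto_snd
  · simp only [piecewise_eq_of_notMem _ _ _ h]
    exact tendsto_const_nhds

end Pool.Agent.H.MP_a58584
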