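import Pool.Agent.H.MP_a58584.A

set_option autoImplicit false
open Set Function Topology Filter TopologicalSpace unitInterval

namespace Pool.Agent.H.MP_a58584

variable {A : Type}

def IsR (r : (A → I) → A → I) : Prop :=
  ∃ S : Set A, S.Countable ∧ (∀ t, ∀ α ∉ S, r t α = t α) ∧ ∀ t t', ∀ α ∈ S, r t α = r t' α

lemma IsR.id : IsR (id : (A → I) → A → I) := ⟨∅, countable_empty, fun _ _ _ => rfl, by simp⟩

lemma IsR.comp {r ρ : (A → I) → A → I} (h : IsR r) (h' : IsR ρ) : IsR (r ∘ ρ) := by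
  obtain ⟨S, h1, h2, h3⟩ := h
  obtain ⟨S', h1', h2', h3'⟩ := h'
  refine ⟨S ∪ S', h1.union h1', fun t α hα => ?_, fun t t' α hα => ?_⟩
  · rw [mem_union, not_or] at hα
    rw [comp_apply, h2 _ α hα.1, h2' _ α hα.2]
  · by_cases h : α ∈ S
    · exact h3 _ _ α h
    · rw [comp_apply, comp_apply, h2 _ α h, h2 _ α h, h3' t t' α (hα.resolve_left h)]

lemma IsR.cont {r : (A → I) → A → I} (h : IsR r) : Continuous r := by
  obtain ⟨S, -, h2, h3⟩ := h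
  refine continuous_pi fun α => ?_
  by_cases h : α ∈ S
  · exact continuous_const.congr fun t => h3 0 t α h
  · exact (continuous_apply α).congr fun t => (h2 t α h).symm

lemma exR {S : Set A} (hS : S.Countable) (s : A → I) :
    ∃ r, IsR r ∧ ∀ t, ∀ α ∈ S, r t α = s α := by
  classical
  exact ⟨fun t => S.piecewise s t, ⟨S, hS, fun _ _ h => piecewise_eq_of_notMem _ _ _ h,
    fun _ _ _ h => by simp only [piecewise_eq_of_mem _ _ _ h]⟩,
    fun _ _ h => piecewise_eq_of_mem _ _ _ h⟩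

section
variable {Z : Type} [TopologicalSpace Z]

def Good (G : Set ((A → I) × Z)) : Prop := IsClosed G ∧ ∀ t, ∃ a, (t, a) ∈ G

def pb (r : (A → I) → A → I) (G : Set ((A → I) × Z)) : Set ((A → I) × Z) := {z | (r z.1, z.2) ∈ G}

lemma pb_closed {r : (A → I) → A → I} (hr : IsR r) {G : Set ((A → I) × Z)} (h : IsClosed G) :
    IsClosed (pb r G) := h.preimage ((hr.cont.comp continuous_fst).prodMk continuous_snd)

lemma Good.pb {r : (A → I) → A → I} (hr : IsR r) {G : Set ((A → I) × Z)} (h : Good G) :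
    Good (pb r G) := ⟨pb_closed hr h.1, fun t => h.2 (r t)⟩

variable [CompactSpace Z]

lemma exmin {G : Set ((A → I) × Z)} (h : Good G) : ∃ G', G' ⊆ G ∧ Minimal Good G' := by
  refine zorn_superset_nonempty {G : Set ((A → I) × Z) | Good G} (fun c h1 h2 h3 =>
    ⟨⋂₀ c, ⟨isClosed_sInter fun s hs => (h1 hs).1, fun t => ?_⟩,
      fun s hs => sInter_subset_of_mem hs⟩) G h
  have := h3.to_subtype
  have k : ∀ s : c, IsClosed (Prod.mk t ⁻¹' s.1) := fun s => (h1 s.2).1.preimage (by fun_prop)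
  obtain ⟨a, ha⟩ := IsCompact.nonempty_iInter_of_directed_nonempty_isCompact_isClosed
    (fun s : c => Prod.mk t ⁻¹' s.1) (fun s s' => by
      rcases h2.total s.2 s'.2 with h | h
      · exact ⟨s, Subset.rfl, preimage_mono h⟩
      · exact ⟨s', preimage_mono h, Subset.rfl⟩) (fun s => (h1 s.2).2 t)
    (fun s => (k s).isCompact) k
  exact ⟨a, fun s hs => mem_iInter.1 ha ⟨s, hs⟩⟩

lemma loc [RegularSpace Z] {G : Set ((A → I) × Z)} (h : Minimal Good G) {t : A → I} {a : Z}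
    (ha : (t, a) ∈ G) {V : Set Z} (hV : V ∈ 𝓝 a) :
    ∃ S : Set A, S.Countable ∧ ∃ C ⊆ V, IsClosed C ∧
      ∀ t' : A → I, (∀ α ∈ S, t' α = t α) → ∃ a' ∈ C, (t', a') ∈ G := by
  obtain ⟨C, h1, h2, h3⟩ := exists_mem_nhds_isClosed_subset hV
  have k : ∀ D : Set Z, IsClosed D → IsClosed (Prod.fst '' (G ∩ Prod.snd ⁻¹' D)) := fun D hD =>
    isClosedMap_fst_of_compactSpace _ (h.1.1.inter (hD.preimage continuous_snd))
  obtain ⟨S, hS, hS'⟩ := bock (k _ (isOpen_interior (s := C)).isClosed_compl).isOpen_compl (t := t)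
    (mem_closure_iff.2 fun N hN htN => by
      by_contra hc
      have : Good (G \ N ×ˢ interior C) := by
        refine ⟨h.1.1.sdiff (hN.prod isOpen_interior), fun t' => ?_⟩
        by_cases e : t' ∈ N
        · have : t' ∈ Prod.fst '' (G ∩ Prod.snd ⁻¹' (interior C)ᶜ) := by
            by_contra e'
            exact hc ⟨t', e, e'⟩
          obtain ⟨z, hz, rfl⟩ := this
          exact ⟨z.2, hz.1, fun e => hz.2 e.2⟩
        · obtain ⟨a', ha'⟩ := h.1.2 t'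
          exact ⟨a', ha', fun e' => e e'.1⟩
      exact (h.2 this sdiff_subset ha).2 ⟨htN, mem_interior_iff_mem_nhds.2 h1⟩)
  refine ⟨S, hS, C, h3, h2, fun t' ht' => ?_⟩
  obtain ⟨z, hz, rfl⟩ := closure_minimal (t := Prod.fst '' (G ∩ Prod.snd ⁻¹' C)) (fun s hs => by
    obtain ⟨a', ha'⟩ := h.1.2 s
    refine ⟨(s, a'), ⟨ha', (interior_subset (s := C) ?_ : a' ∈ C)⟩, rfl⟩
    by_contra e
    exact hs ⟨(s, a'), ⟨ha', e⟩, rfl⟩) (k C h2) (hS' t' ht')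
  exact ⟨z.2, hz.2, hz.1⟩

end

variable {X : Type} [TopologicalSpace X] [CompactSpace X] [T2Space X]

def Neg (A X : Type) [TopologicalSpace X] : Prop :=
  ∀ p : (A → I) → X, Continuous p → ∃ r, IsR r ∧ ∃ x, ∀ t, p (r t) = x

omit [CompactSpace X] [T2Space X] in
lemma Neg.fin (H : Neg A X) {ι : Type} (s : Finset ι) (p : ι → (A → I) → X)
    (hp : ∀ i ∈ s, Continuous (p i)) : ∃ r, IsR r ∧ ∀ i ∈ s, ∃ x, ∀ t, p i (r t) = x := by
  classical
  induction s using Finset.induction_on with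
  | empty => exact ⟨id, IsR.id, by simp⟩
  | insert j s _ ih =>
    obtain ⟨r, h1, h2⟩ := ih fun i hi => hp i (Finset.mem_insert_of_mem hi)
    obtain ⟨ρ, h3, x, h4⟩ := H (p j ∘ r) ((hp j (Finset.mem_insert_self _ _)).comp h1.cont)
    refine ⟨r ∘ ρ, h1.comp h3, fun i hi => ?_⟩
    rcases Finset.mem_insert.1 hi with rfl | hi
    · exact ⟨x, h4⟩
    · obtain ⟨y, hy⟩ := h2 i hi
      exact ⟨y, fun t => hy _⟩

lemma key (H : Neg A X) {n n' : ℕ} {G : Set ((A → I) × (Fin n → X))}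
    {G' : Set ((A → I) × (Fin n' → X))} (hG : Good G) (hG' : Good G') (R : X → Prop)
    (hR : ∀ t a b, (t, a) ∈ G → (t, b) ∈ G' → ∃ i j, a i = b j ∧ R (a i)) :
    ∃ r, IsR r ∧ ∃ G₁ ⊆ pb r G, ∃ G₁' ⊆ pb r G', Good G₁ ∧ Good G₁' ∧ ∃ i j p, R p ∧
      (∀ z ∈ G₁, z.2 i = p) ∧ ∀ z ∈ G₁', z.2 j = p := by
  classical
  obtain ⟨M, hM, mM⟩ := exmin hG
  obtain ⟨M', hM', mM'⟩ := exmin hG'
  let ag : (Fin n → X) → (Fin n' → X) → Finset (Fin n × Fin n') := fun a b =>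
    Finset.univ.filter fun ij => a ij.1 = b ij.2
  obtain ⟨⟨t, a, b⟩, ⟨h1, h2⟩, h3⟩ := (InvImage.wf
    (fun z : (A → I) × (Fin n → X) × (Fin n' → X) => (ag z.2.1 z.2.2).card) wellFounded_lt).has_min
    {z | (z.1, z.2.1) ∈ M ∧ (z.1, z.2.2) ∈ M'} (by
      obtain ⟨a, ha⟩ := mM.1.2 0
      obtain ⟨b, hb⟩ := mM'.1.2 0
      exact ⟨(0, a, b), ha, hb⟩)
  have : (⋂ ij ∈ (ag a b)ᶜ, {z : (Fin n → X) × (Fin n' → X) | z.1 ij.1 ≠ z.2 ij.2}) ∈ 𝓝 (a, b) :=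
    (isOpen_biInter_finset fun ij _ => isOpen_ne_fun (by fun_prop) (by fun_prop)).mem_nhds
      (mem_iInter₂.2 fun ij h => by simpa [ag] using h)
  obtain ⟨V, hV, V', hV', hVV⟩ := mem_nhds_prod_iff.1 this
  obtain ⟨S, hS, C, c1, c2, c3⟩ := loc mM h1 hV
  obtain ⟨S', hS', C', c1', c2', c3'⟩ := loc mM' h2 hV'
  obtain ⟨r, hr, hr'⟩ := exR (hS.union hS') t
  have g1 : Good (pb r (M ∩ Prod.snd ⁻¹' C)) := ⟨pb_closed hr (mM.1.1.inter
    (c2.preimage continuous_snd)), fun s => by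
      obtain ⟨a', e1, e2⟩ := c3 (r s) fun α hα => hr' _ _ (Or.inl hα)
      exact ⟨a', e2, e1⟩⟩
  have g2 : Good (pb r (M' ∩ Prod.snd ⁻¹' C')) := ⟨pb_closed hr (mM'.1.1.inter
    (c2'.preimage continuous_snd)), fun s => by
      obtain ⟨a', e1, e2⟩ := c3' (r s) fun α hα => hr' _ _ (Or.inr hα)
      exact ⟨a', e2, e1⟩⟩
  have e : ∀ s a' b', (s, a') ∈ pb r (M ∩ Prod.snd ⁻¹' C) → (s, b') ∈ pb r (M' ∩ Prod.snd ⁻¹' C') →
      ∀ i j, a' i = b' j ↔ (i, j) ∈ ag a b := by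
    intro s a' b' e1 e2 i j
    have : ag a' b' = ag a b := by
      refine Finset.eq_of_subset_of_card_le (fun ij hij => ?_)
        (not_lt.1 (h3 (r s, a', b') ⟨e1.1, e2.1⟩))
      by_contra hc
      exact mem_iInter₂.1 (hVV (mk_mem_prod (c1 e1.2) (c1' e2.2))) ij (Finset.mem_compl.2 hc)
        (Finset.mem_filter.1 hij).2
    rw [← this]
    simp [ag]
  choose u hu using g1.2
  choose v hv using g2.2
  obtain ⟨ρ, k1, k2⟩ := H.fin (ag a b) (fun ij s => v s ij.2) fun ij hij => by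
    refine continuous_iff_isClosed.2 fun D hD => ?_
    have : (fun s => v s ij.2) ⁻¹' D = Prod.fst '' (pb r (M ∩ Prod.snd ⁻¹' C) ∩
        (fun z => z.2 ij.1) ⁻¹' D) := by
      ext s
      refine ⟨fun h => ⟨(s, u s), ⟨hu s, ?_⟩, rfl⟩, ?_⟩
      · exact (show u s ij.1 ∈ D from (e s _ _ (hu s) (hv s) _ _).2 hij ▸ h)
      · rintro ⟨z, hz, rfl⟩
        exact (show v z.1 ij.2 ∈ D from (e z.1 _ _ hz.1 (hv _) _ _).2 hij ▸ hz.2)
    rw [this]
    exact isClosedMap_fst_of_compactSpace _ (g1.1.inter (hD.preimage (by fun_prop)))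
  obtain ⟨i, j, l1, l2⟩ := hR _ _ _ (hM (hu (ρ 0)).1) (hM' (hv (ρ 0)).1)
  have hij := (e _ _ _ (hu _) (hv _) _ _).1 l1
  obtain ⟨x, hx⟩ := k2 _ hij
  refine ⟨r ∘ ρ, hr.comp k1, pb ρ (pb r (M ∩ Prod.snd ⁻¹' C)), fun z hz => hM hz.1,
    pb ρ (pb r (M' ∩ Prod.snd ⁻¹' C')), fun z hz => hM' hz.1, g1.pb k1, g2.pb k1, i, j, x,
    (l1.trans (hx 0)) ▸ l2, fun z hz => ?_, fun z hz => ?_⟩
  · exact ((e _ _ _ hz (hv _) _ _).2 hij).trans (hx _)
  · rw [← (e _ _ _ (hu _) hz _ _).2 hij, (e _ _ _ (hu _) (hv _) _ _).2 hij]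
    exact hx _

def cst {n : ℕ} (G : Set ((A → I) × (Fin n → X))) (l : Fin n) : Prop := ∃ p, ∀ z ∈ G, z.2 l = p

def Sat {n : ℕ} (G : Set ((A → I) × (Fin n → X))) : Prop :=
  Good G ∧ ∀ r, IsR r → ∀ G₁ ⊆ pb r G, Good G₁ → ∀ l, cst G₁ l → cst G l

omit [CompactSpace X] [T2Space X] in
lemma exsat {n : ℕ} {G : Set ((A → I) × (Fin n → X))} (hG : Good G) :
    ∃ r, IsR r ∧ ∃ G₁ ⊆ pb r G, Sat G₁ := by
  classical
  obtain ⟨G₁, ⟨h1, r, h2, h3⟩, h4⟩ := (InvImage.wf (fun G₁ : Set ((A → I) × (Fin n → X)) =>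
    (Finset.univ.filter fun l => ¬ cst G₁ l).card) wellFounded_lt).has_min
    {G₁ | Good G₁ ∧ ∃ r, IsR r ∧ G₁ ⊆ pb r G} ⟨G, hG, id, IsR.id, Subset.rfl⟩
  refine ⟨r, h2, G₁, h3, h1, fun ρ k1 G₂ k2 k3 l hl => ?_⟩
  have := Finset.eq_of_subset_of_card_le (s := Finset.univ.filter fun l => ¬ cst G₂ l)
    (t := Finset.univ.filter fun l => ¬ cst G₁ l) (fun l hl => by
      simp only [Finset.mem_filter, Finset.mem_univ, true_and] at hl ⊢
      exact fun ⟨p, hp⟩ => hl ⟨p, fun z hz => hp (ρ z.1, z.2) (k2 hz)⟩)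
    (not_lt.1 (h4 G₂ ⟨k3, r ∘ ρ, h2.comp k1, fun z hz => h3 (k2 hz)⟩))
  by_contra hc
  have k : l ∈ Finset.univ.filter fun l => ¬ cst G₂ l := by rw [this]; simpa using hc
  exact (Finset.mem_filter.1 k).2 hl

lemma chain (hA : ¬ (univ : Set A).Countable) (H : Neg A X) {n n' : ℕ} {η : ℝ} (hη : 0 < η)
    (f : A → X → ℝ) (hf : ∀ α x, f α x ∈ Icc (0 : ℝ) 1)
    (T : A → Set ((A → I) × (Fin n → X))) (T' : A → Set ((A → I) × (Fin n' → X)))
    (c : ∀ α, IsClosed (T α)) (c' : ∀ α, IsClosed (T' α))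
    (d : ∀ α t, t α = 0 → ∃ a, (t, a) ∈ T α) (d' : ∀ α t, t α = 1 → ∃ a, (t, a) ∈ T' α)
    (hR : ∀ α β t a b, (t, a) ∈ T α → (t, b) ∈ T' β →
      ∃ i j, a i = b j ∧ η ≤ |f α (a i) - f β (a i)|) : False := by
  classical
  have step : ∀ r : {r : (A → I) → A → I // IsR r}, ∃ (α : A) (ρ ρ' : {r // IsR r})
      (G : Set ((A → I) × (Fin n → X))) (G' : Set ((A → I) × (Fin n' → X))),
      Sat G ∧ Sat G' ∧ G ⊆ pb (r.1 ∘ ρ.1) (T α) ∧ G' ⊆ pb (r.1 ∘ ρ'.1) (T' α) := by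
    rintro ⟨r, hr⟩
    obtain ⟨S, h1, h2, -⟩ := id hr
    obtain ⟨α, hα⟩ : ∃ α, α ∉ S := by
      by_contra hc
      push Not at hc
      exact hA (h1.mono fun a _ => hc a)
    obtain ⟨r0, k0, k0'⟩ := exR (countable_singleton α) 0
    obtain ⟨r1, k1, k1'⟩ := exR (countable_singleton α) 1
    obtain ⟨ρ, e1, G, e2, e3⟩ := exsat (G := pb _ (T α)) ⟨pb_closed (hr.comp k0) (c α), fun t =>
      d α (r (r0 t)) (by simp [h2 _ α hα, k0' t α rfl])⟩
    obtain ⟨ρ', e1', G', e2', e3'⟩ := exsat (G := pb _ (T' α)) ⟨pb_closed (hr.comp k1) (c' α),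
      fun t => d' α (r (r1 t)) (by simp [h2 _ α hα, k1' t α rfl])⟩
    exact ⟨α, ⟨_, k0.comp e1⟩, ⟨_, k1.comp e1'⟩, G, G', e3, e3', e2, e2'⟩
  choose α ρ ρ' G G' s1 s2 s3 s4 using step
  let r : ℕ → {r : (A → I) → A → I // IsR r} := fun k =>
    (fun r => ⟨r.1 ∘ (ρ r).1, r.2.comp (ρ r).2⟩)^[k] ⟨id, IsR.id⟩
  have hr : ∀ k, (r (k + 1)).1 = (r k).1 ∘ (ρ (r k)).1 := fun k => by
    simp only [r, iterate_succ_apply']
  have hle : ∀ i j, i ≤ j → ∃ τ, IsR τ ∧ (r j).1 = (r i).1 ∘ τ := by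
    intro i j hij
    induction hij with
    | refl => exact ⟨id, IsR.id, rfl⟩
    | step _ ih =>
      obtain ⟨τ, h1, h2⟩ := ih
      exact ⟨_, h1.comp (ρ _).2, by rw [hr, h2]; rfl⟩
  choose u hu using fun k => (s1 (r k)).1.2 0
  choose v hv using fun k => (s2 (r k)).1.2 0
  have main : ∀ i j, i < j → ∃ l : Fin n × Fin n', u i l.1 = v j l.2 ∧
      η ≤ |f (α (r i)) (u i l.1) - f (α (r j)) (u i l.1)| := by
    intro i j hij
    obtain ⟨τ, h1, h2⟩ := hle (i + 1) j hij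
    have h3 := h1.comp (ρ' (r j)).2
    obtain ⟨θ, k1, G₁, k2, G₁', k3, k4, k5, l, l', p, k6, k7, k8⟩ := key H ((s1 (r i)).1.pb h3)
      (s2 (r j)).1 (fun p => η ≤ |f (α (r i)) p - f (α (r j)) p|) fun t a b ha hb =>
        hR _ _ ((r j).1 ((ρ' (r j)).1 t)) a b (by
          have := s3 _ ha
          rw [h2, hr]
          exact this) (s4 _ hb)
    obtain ⟨x, hx⟩ := (s1 (r i)).2 _ (h3.comp k1) G₁ k2 k4 l ⟨p, k7⟩
    obtain ⟨y, hy⟩ := (s2 (r j)).2 _ k1 G₁' k3 k5 l' ⟨p, k8⟩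
    obtain ⟨a, ha⟩ := k4.2 0
    obtain ⟨b, hb⟩ := k5.2 0
    have e1 : u i l = p := (hx _ (hu i)).trans ((hx (_, a) (k2 ha)).symm.trans (k7 (0, a) ha))
    have e2 : v j l' = p := (hy _ (hv j)).trans ((hy (_, b) (k3 hb)).symm.trans (k8 (0, b) hb))
    exact ⟨(l, l'), e1.trans e2.symm, e1 ▸ k6⟩
  let U := hyperfilter ℕ
  have m2 : ∀ i, ∃ l : Fin n × Fin n', ∀ᶠ j in U, u i l.1 = v j l.2 ∧
      η ≤ |f (α (r i)) (u i l.1) - f (α (r j)) (u i l.1)| := fun i =>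
    Ultrafilter.eventually_exists_iff.1 (by
      filter_upwards [Nat.hyperfilter_le_atTop (eventually_gt_atTop i)] with j hj using main i j hj)
  obtain ⟨l, hl⟩ := (Ultrafilter.eventually_exists_iff (f := U)).1 (Eventually.of_forall m2)
  obtain ⟨i₀, h₀⟩ := hl.exists
  obtain ⟨L, -, hL⟩ := (isCompact_Icc (a := (0 : ℝ)) (b := 1)).ultrafilter_le_nhds
    (U.map fun i => f (α (r i)) (u i₀ l.1)) (by
      rw [le_principal_iff]
      exact mem_map.2 (Eventually.of_forall fun i => hf _ _))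
  have hL' : ∀ᶠ i in U, |f (α (r i)) (u i₀ l.1) - L| < η / 2 :=
    hL (Metric.ball_mem_nhds L (half_pos hη))
  obtain ⟨i, h1, h2⟩ := (hl.and hL').exists
  obtain ⟨j, h3, h4, h5⟩ := (h1.and (h₀.and hL')).exists
  have := h3.2
  rw [h3.1.trans h4.1.symm] at this
  rw [abs_lt] at h2 h5
  rcases le_abs.1 this with h | h <;> linarith [h2.1, h2.2, h5.1, h5.2]

end Pool.Agent.H.MP_a58584
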