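import Pool.Agent.H.MP_a58584.B

set_option autoImplicit false
open Set Function Topology Filter TopologicalSpace unitInterval

namespace Pool.Agent.H.MP_a58584

abbrev CP (X : Type) [TopologicalSpace X] : Type := {f : X → ℝ // Continuous f}

variable {X Y : Type} [TopologicalSpace X] [TopologicalSpace Y]

def TT (Ψ : CP X → Y → ℝ) (f : CP X) (n m : ℕ) : Set (Y × (Fin n → X)) :=
  {z | ∀ g : CP X, (∀ i, |g.1 (z.2 i) - f.1 (z.2 i)| < 1 / (m + 1)) → Ψ g z.1 ≤ 1 / 3}

lemma TT_closed {Ψ : CP X → Y → ℝ} (h : ∀ g, Continuous (Ψ g)) (f : CP X) (n m : ℕ) :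
    IsClosed (TT Ψ f n m) := by
  rw [TT, setOf_forall]
  refine isClosed_iInter fun g => isClosed_imp ?_ (isClosed_le ((h g).comp continuous_fst)
    continuous_const)
  rw [setOf_forall]
  have := g.2
  have := f.2
  exact isOpen_iInter_of_finite fun i => isOpen_lt (by fun_prop) continuous_const

omit [TopologicalSpace Y] in
lemma TT_ex {Ψ : CP X → Y → ℝ} {y : Y} (h : Continuous fun g => Ψ g y) {f : CP X}
    (hf : Ψ f y < 1 / 3) : ∃ n m a, (y, a) ∈ TT Ψ f n m := by
  obtain ⟨s, hs, hs'⟩ := (mem_nhds_subtype _ _ _).1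
    ((isOpen_lt h continuous_const).mem_nhds (x := f) hf)
  rw [nhds_pi, Filter.mem_pi] at hs
  obtain ⟨F, h1, t, h2, h3⟩ := hs
  have : ∀ᶠ m : ℕ in atTop, ∀ x ∈ F, Metric.ball (f.1 x) (1 / (m + 1)) ⊆ t x := by
    refine (eventually_all_finite h1).2 fun x _ => ?_
    obtain ⟨ε, e1, e2⟩ := Metric.mem_nhds_iff.1 (h2 x)
    filter_upwards [(tendsto_one_div_add_atTop_nhds_zero_nat (𝕜 := ℝ)).eventually
      (ge_mem_nhds e1)] with m hm using (Metric.ball_subset_ball hm).trans e2
  obtain ⟨m, hm⟩ := this.exists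
  obtain ⟨n, a, -, ha⟩ := h1.fin_param
  refine ⟨n, m, a, fun g hg => le_of_lt (hs' (h3 fun x hx => hm x hx ?_))⟩
  obtain ⟨i, rfl⟩ := ha.symm ▸ hx
  exact hg i

omit [TopologicalSpace Y] in
lemma TT_conf [T4Space X] {Ψ : CP X → Y → ℝ} {f f' : CP X} {n m n' m' : ℕ} {y : Y}
    {a : Fin n → X} {b : Fin n' → X} (ha : (y, a) ∈ TT Ψ f n m)
    (hb : (y, b) ∈ TT (fun g y => 1 - Ψ g y) f' n' m') :
    ∃ i j, a i = b j ∧ 1 / ((m : ℝ) + 1) ≤ |f.1 (a i) - f'.1 (a i)| := by
  classical
  by_contra hc
  push Not at hc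
  have hs := (finite_range a).union (finite_range b)
  have := hs.to_subtype
  obtain ⟨g, hg⟩ := ContinuousMap.exists_restrict_eq (Y := ℝ) hs.isClosed
    ⟨fun x => if x.1 ∈ range b then f'.1 x else f.1 x, continuous_of_discreteTopology⟩
  have hg' : ∀ x, x ∈ range a ∪ range b → g x = if x ∈ range b then f'.1 x else f.1 x :=
    fun x hx => DFunLike.congr_fun hg ⟨x, hx⟩
  have h1 := ha ⟨g, g.continuous⟩ fun i => by
    simp only [hg' _ (Or.inl (mem_range_self i))]
    split_ifs with h
    · obtain ⟨j, hj⟩ := h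
      rw [abs_sub_comm]
      exact hc i j hj.symm
    · simpa using Nat.cast_add_one_pos (α := ℝ) m
  have h2 := hb ⟨g, g.continuous⟩ fun i => by
    simp only [hg' _ (Or.inr (mem_range_self i)), if_pos (mem_range_self i)]
    simpa using Nat.cast_add_one_pos (α := ℝ) m'
  simp only at h1 h2
  linarith

lemma notNeg [CompactSpace X] [T2Space X] {B : Type} (e : X → B → I) (he : Continuous e)
    (hi : Injective e) (φ : CP X → CP (B → I)) (hφ : Continuous φ)
    (hx : ∀ f x, (φ f).1 (e x) = f.1 x) (hm : ¬ MetrizableSpace X)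
    (A : Type) (hA : Cardinal.mk A = Cardinal.aleph 1) : ¬ Neg A X := by
  classical
  intro H
  let Ψ : CP X → (B → I) → ℝ := fun g y => (φ g).1 y
  let Ψ' : CP X → (B → I) → ℝ := fun g y => 1 - Ψ g y
  have c1 : ∀ g, Continuous (Ψ g) := fun g => (φ g).2
  have c2 : ∀ g, Continuous (Ψ' g) := fun g => continuous_const.sub (c1 g)
  have c3 : ∀ y, Continuous fun g => Ψ g y := fun y =>
    (continuous_apply y).comp (continuous_subtype_val.comp hφ)
  have c4 : ∀ y, Continuous fun g => Ψ' g y := fun y => continuous_const.sub (c3 y)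
  obtain ⟨p, k, q, hq, h⟩ := delta
    (P := {f : CP X // ∀ x, f.1 x ∈ Icc (0 : ℝ) 1} × (ℕ × ℕ) × ℕ × ℕ)
    (fun p => interior (Prod.fst '' TT Ψ p.1.1 p.2.1.1 p.2.1.2))
    (fun p => interior (Prod.fst '' TT Ψ' p.1.1 p.2.2.1 p.2.2.2)) Prod.snd
    (fun _ => isOpen_interior) (fun _ => isOpen_interior)
    (fun p => Set.disjoint_left.2 fun y h1 h2 => by
      obtain ⟨z, hz, rfl⟩ := interior_subset h1
      obtain ⟨⟨_, b⟩, hz', rfl⟩ := interior_subset h2
      obtain ⟨i, -, -, h⟩ := TT_conf (y := z.1) (a := z.2) (b := b) hz hz'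
      have : (0 : ℝ) < 1 / (p.2.1.2 + 1) := by positivity
      simp only [sub_self, abs_zero] at h
      linarith)
    (fun S hS => by
      obtain ⟨x, x', h1, h2⟩ : ∃ x x', (∀ β ∈ S, e x β = e x' β) ∧ x ≠ x' := by
        by_contra hc
        push Not at hc
        have := hS.to_subtype
        exact hm (Continuous.isClosedEmbedding (f := fun x (β : S) => e x β) (by fun_prop)
          fun x x' h => hc x x' fun β hβ => congrFun h ⟨β, hβ⟩).isEmbedding.metrizableSpace
      obtain ⟨f, f0, f1, hf⟩ := exists_continuous_zero_one_of_isClosed isClosed_singleton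
        isClosed_singleton (Set.disjoint_singleton.2 h2)
      let g : CP X := ⟨f, f.continuous⟩
      have pw : ∀ {W : Type} [TopologicalSpace W] {u v : W → B → I}, Continuous u → Continuous v →
          Continuous fun w => S.piecewise (u w) (v w) := fun hu hv => continuous_pi fun β => by
        by_cases h : β ∈ S
        · simp only [piecewise_eq_of_mem _ _ _ h]; fun_prop
        · simp only [piecewise_eq_of_notMem _ _ _ h]; fun_prop
      let Ω : Set ((B → I) × (B → I)) := {z | Ψ g z.1 < 1 / 3} ∩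
        {z | Ψ' g (S.piecewise z.1 z.2) < 1 / 3}
      have hΩ : IsOpen Ω := (isOpen_lt ((c1 g).comp continuous_fst) continuous_const).inter
        (isOpen_lt ((c2 g).comp (pw continuous_fst continuous_snd)) continuous_const)
      let K : (ℕ × ℕ) × ℕ × ℕ → Set ((B → I) × (B → I)) := fun c =>
        Prod.fst ⁻¹' (Prod.fst '' TT Ψ g c.1.1 c.1.2) ∩
          (fun z => S.piecewise z.1 z.2) ⁻¹' (Prod.fst '' TT Ψ' g c.2.1 c.2.2)
      have hK : ∀ c, IsClosed (K c) := fun c =>
        ((isClosedMap_fst_of_compactSpace _ (TT_closed c1 _ _ _)).preimage continuous_fst).inter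
          ((isClosedMap_fst_of_compactSpace _ (TT_closed c2 _ _ _)).preimage
            (pw continuous_fst continuous_snd))
      obtain ⟨z, z1, z2⟩ := (dense_iUnion_interior_of_closed (f := fun c => K c ∪ Ωᶜ)
        (fun c => (hK c).union hΩ.isClosed_compl) (eq_univ_of_forall fun z => by
          by_cases hz : z ∈ Ω
          · obtain ⟨n, m, a, ha⟩ := TT_ex (c3 _) hz.1
            obtain ⟨n', m', b, hb⟩ := TT_ex (c4 _) hz.2
            exact mem_iUnion.2 ⟨((n, m), n', m'), Or.inl ⟨⟨_, ha, rfl⟩, ⟨_, hb, rfl⟩⟩⟩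
          · exact mem_iUnion.2 ⟨0, Or.inr hz⟩)).inter_open_nonempty Ω hΩ ⟨(e x, e x'), by
            have : S.piecewise (e x) (e x') = e x' := funext fun β => by
              by_cases h : β ∈ S
              · rw [piecewise_eq_of_mem _ _ _ h, h1 β h]
              · rw [piecewise_eq_of_notMem _ _ _ h]
            constructor
            · simp [Ψ, hx, g, f0 (mem_singleton x)]
            · simp [Ψ', Ψ, this, hx, g, f1 (mem_singleton x')]⟩
      obtain ⟨c, hc⟩ := mem_iUnion.1 z2
      have hz : K c ∈ 𝓝 z := by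
        filter_upwards [mem_interior_iff_mem_nhds.1 hc, hΩ.mem_nhds z1] with w w1 w2 using
          w1.resolve_right fun h => h w2
      refine ⟨(⟨g, hf⟩, c), z.1, S.piecewise z.1 z.2, mem_interior_iff_mem_nhds.2 ?_,
        mem_interior_iff_mem_nhds.2 ?_, fun β hβ => (piecewise_eq_of_mem _ _ _ hβ).symm⟩
      · filter_upwards [(Continuous.prodMk_left z.2).continuousAt.preimage_mem_nhds (x := z.1) hz]
          with w hw using hw.1
      · filter_upwards [((pw continuous_id continuous_const).prodMk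
          (pw continuous_const continuous_id)).continuousAt.preimage_mem_nhds
            (f := fun w => (S.piecewise w z.1, S.piecewise z.2 w))
            (x := S.piecewise z.1 z.2) (t := K c) (by
              have : (S.piecewise (S.piecewise z.1 z.2) z.1, S.piecewise z.2
                  (S.piecewise z.1 z.2)) = z := by
                ext β <;> by_cases h : β ∈ S <;> simp [h]
              rwa [this])] with w hw
        have := hw.2
        rwa [mem_preimage, show S.piecewise (S.piecewise w z.1) (S.piecewise z.2 w) = w by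
          ext β; by_cases h : β ∈ S <;> simp [h]] at this) A hA.le
  refine chain (n := k.1.1) (n' := k.2.1) (η := 1 / ((k.1.2 : ℝ) + 1)) (fun hc => ?_) H
    (by positivity) (fun α => (p α).1.1.1) (fun α => (p α).1.2)
    (fun α => {z | (q z.1, z.2) ∈ TT Ψ (p α).1.1 k.1.1 k.1.2})
    (fun α => {z | (q z.1, z.2) ∈ TT Ψ' (p α).1.1 k.2.1 k.2.2})
    (fun α => (TT_closed c1 _ _ _).preimage (by fun_prop))
    (fun α => (TT_closed c2 _ _ _).preimage (by fun_prop)) (fun α t ht => ?_) (fun α t ht => ?_)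
    fun α β t a b ha hb => TT_conf ha hb
  · have := Cardinal.mk_le_aleph0_iff.2 (countable_univ_iff.1 hc)
    rw [hA] at this
    exact this.not_gt Cardinal.aleph0_lt_aleph_one
  · have := interior_subset (((h α).2 t).1 ht)
    rw [(h α).1] at this
    obtain ⟨⟨y, a⟩, hz, e⟩ := this
    exact ⟨a, by rwa [mem_setOf_eq, ← e]⟩
  · have := interior_subset (((h α).2 t).2 ht)
    rw [(h α).1] at this
    obtain ⟨⟨y, a⟩, hz, e⟩ := this
    exact ⟨a, by rwa [mem_setOf_eq, ← e]⟩

lemma emb [T2Space X] {A : Type} (hA : Cardinal.mk A ≤ Cardinal.aleph 1) {B : Type}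
    (H : ¬ Neg B X) : ∃ h : (A → Bool) → X, IsClosedEmbedding h := by
  simp only [Neg, not_forall] at H
  obtain ⟨m, hm, H⟩ := H
  push Not at H
  obtain ⟨p, k, q, hq, h⟩ := delta (C := Unit)
    (P := {U : Set X × Set X // IsOpen U.1 ∧ IsOpen U.2 ∧ Disjoint U.1 U.2})
    (fun p => m ⁻¹' p.1.1) (fun p => m ⁻¹' p.1.2) (fun _ => ()) (fun p => p.2.1.preimage hm)
    (fun p => p.2.2.1.preimage hm) (fun p => p.2.2.2.preimage m) (fun S hS => by
      obtain ⟨r, h1, h2⟩ := exR hS 0
      obtain ⟨t, ht⟩ := H r h1 (m (r 0))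
      obtain ⟨U, V, h3, h4, h5, h6, h7⟩ := t2_separation ht
      exact ⟨⟨(U, V), h3, h4, h7⟩, r t, r 0, h5, h6, fun β hβ => by rw [h2 _ β hβ, h2 _ β hβ]⟩) A hA
  refine ⟨fun z => m (q fun α => cond (z α) 1 0), Continuous.isClosedEmbedding
    (hm.comp (hq.comp (continuous_pi fun α => (continuous_of_discreteTopology
      (f := fun b : Bool => cond b (1 : I) 0)).comp (continuous_apply α)))) fun z z' e => ?_⟩
  funext α
  have k : ∀ z z' : A → Bool, z α = false → z' α = true →
      m (q fun α => cond (z α) 1 0) ≠ m (q fun α => cond (z' α) 1 0) := fun z z' a b e => by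
    have h1 := ((h α).2 (fun α => cond (z α) 1 0)).1 (by simp [a])
    have h2 := ((h α).2 (fun α => cond (z' α) 1 0)).2 (by simp [b])
    rw [mem_preimage] at h1 h2
    exact Set.disjoint_left.1 (p α).2.2.2 h1 (e ▸ h2)
  cases a : z α <;> cases b : z' α
  · rfl
  · exact (k z z' a b e).elim
  · exact (k z' z b a e.symm).elim
  · rfl

lemma neg_td [TotallyDisconnectedSpace X] (A : Type) : Neg A X := fun p hp =>
  ⟨id, IsR.id, p 0, fun t => (isPreconnected_range hp).subsingleton ⟨t, rfl⟩ ⟨0, rfl⟩⟩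

lemma notMetr {A : Type} (hA : Cardinal.mk A = Cardinal.aleph 1) : ¬ MetrizableSpace (A → Bool) := by
  intro h
  obtain ⟨s, hs⟩ := (𝓝 (fun _ : A => false)).exists_antitone_basis
  have : ∀ n, ∃ F : Set A, F.Finite ∧ ∀ z : A → Bool, (∀ α ∈ F, z α = false) → z ∈ s n := by
    intro n
    have := hs.mem n
    rw [nhds_pi, Filter.mem_pi] at this
    obtain ⟨F, h1, t, h2, h3⟩ := this
    exact ⟨F, h1, fun z hz => h3 fun α hα => (hz α hα).symm ▸ mem_of_mem_nhds (h2 α)⟩
  choose F h1 h2 using this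
  have : Countable A := countable_univ_iff.1 ((countable_iUnion fun n => (h1 n).countable).mono
    fun α _ => by
      classical
      by_contra hc
      obtain ⟨n, -, hn⟩ := hs.1.mem_iff.1 ((continuous_apply (A := fun _ : A => Bool)
        α).continuousAt.preimage_mem_nhds (x := fun _ => false) (t := {false})
        (by simp [nhds_discrete]))
      have := hn (h2 n (update (fun _ => false) α true) fun β hβ => update_of_ne
        (fun e => hc (mem_iUnion.2 ⟨n, by rwa [e] at hβ⟩)) _ _)
      simp at this)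
  have := Cardinal.mk_le_aleph0_iff.2 this
  rw [hA] at this
  exact this.not_gt Cardinal.aleph0_lt_aleph_one

end Pool.Agent.H.MP_a58584
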