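import Pool.Agent.H.MP_a58584.C

set_option autoImplicit false
open Set Function Topology Filter TopologicalSpace unitInterval

namespace Pool.Agent.H.MP_a58584

structure L {D : Type} (F : Filter D) : Type where
  o : Option D

instance {D : Type} (F : Filter D) : TopologicalSpace (L F) where
  IsOpen U := ⟨none⟩ ∈ U → {d | (⟨some d⟩ : L F) ∈ U} ∈ F
  isOpen_univ _ := univ_mem
  isOpen_inter _ _ h h' e := inter_mem (h e.1) (h' e.2)
  isOpen_sUnion _ h := fun ⟨t, h1, h2⟩ => mem_of_superset (h t h1 h2) fun _ hd => ⟨t, h1, hd⟩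

lemma L.t35 {D : Type} {F : Filter D} (hF : ∀ d, ({d}ᶜ : Set D) ∈ F) : T35Space (L F) := by
  have k : ∀ d, IsClopen ({⟨some d⟩} : Set (L F)) := fun d =>
    ⟨⟨fun _ => mem_of_superset (hF d) fun d' h e => h (by simpa using e)⟩, fun h => by simp at h⟩
  have : T0Space (L F) := by
    refine (t0Space_iff_exists_isOpen_xor_mem _).2 ?_
    rintro ⟨_ | d⟩ ⟨_ | d'⟩ h
    · exact (h rfl).elim
    · exact ⟨_, (k d').2, Or.inr ⟨rfl, h⟩⟩
    · exact ⟨_, (k d).2, Or.inl ⟨rfl, h.symm⟩⟩
    · exact ⟨_, (k d).2, Or.inl ⟨rfl, h.symm⟩⟩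
  have : CompletelyRegularSpace (L F) := by
    refine .of_isTopologicalBasis_clopens (isTopologicalBasis_of_isOpen_of_nhds
      (fun _ h => h.2) ?_)
    rintro ⟨_ | d⟩ U h1 h2
    · exact ⟨U, ⟨⟨fun h => (h h1).elim⟩, h2⟩, h1, Subset.rfl⟩
    · exact ⟨_, k d, rfl, singleton_subset_iff.2 h1⟩
  exact {}

lemma L.tend {D : Type} (F : Filter D) :
    Tendsto (fun d => (⟨some d⟩ : L F)) F (𝓝 ⟨none⟩) := fun U hU => by
  obtain ⟨V, h1, h2, h3⟩ := mem_nhds_iff.1 hU
  exact mem_of_superset (h2 h3) fun d hd => h1 hd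

def Ext {X Z : Type} [TopologicalSpace X] [TopologicalSpace Z] (e : X → Z) : Prop :=
  ∃ φ : CP X → CP Z, Continuous φ ∧ ∀ (f : CP X) (x : X), (φ f).1 (e x) = f.1 x

def TExtral (X : Type) [TopologicalSpace X] : Prop :=
  ∀ (Z : Type) [TopologicalSpace Z] [T35Space Z] (e : X → Z), IsClosedEmbedding e → Ext e

variable {X : Type} [TopologicalSpace X]

lemma TExtral.ext (H : TExtral X) {Y : Type} [TopologicalSpace Y] [T35Space Y] {u : X → Y}
    (hu : IsEmbedding u) : Ext u := by
  let c := max (Cardinal.mk (CP X × X × ℕ)) Cardinal.aleph0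
  have hc : (Order.succ c).IsRegular := Cardinal.isRegular_succ (le_max_right _ _)
  let D := (Order.succ c).out
  let F := cocardinal D hc
  have := L.t35 (F := F) fun d => (finite_singleton d).compl_mem_cocardinal
  have : F.NeBot := by
    have := (cocardinal_inf_principal_neBot_iff (hreg := hc) (s := (univ : Set D))).2
      (by simp [D])
    simpa using this
  let Z := {z : Y × L F // z.2 = ⟨none⟩ → z.1 ∈ range u}
  let e : X → Z := fun x => ⟨(u x, ⟨none⟩), fun _ => ⟨x, rfl⟩⟩
  have ec : Continuous e := (hu.continuous.prodMk continuous_const).subtype_mk _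
  obtain ⟨φ, h1, h2⟩ := H Z e ⟨IsEmbedding.of_comp ec (continuous_fst.comp continuous_subtype_val)
    hu, by
      have : range e = (fun z : Z => z.1.2) ⁻¹' {⟨none⟩} := by
        ext ⟨⟨y, l⟩, hz⟩
        refine ⟨by rintro ⟨x, h⟩; rw [← h]; rfl, fun h => ?_⟩
        obtain ⟨x, rfl⟩ := hz h
        obtain rfl : l = _ := h
        exact ⟨x, rfl⟩
      rw [this]
      exact isClosed_singleton.preimage (continuous_snd.comp continuous_subtype_val)⟩
  let j : D → Y → Z := fun d y => ⟨(y, ⟨some d⟩), by simp⟩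
  have : ∀ᶠ d in F, ∀ τ : CP X × X × ℕ,
      dist ((φ τ.1).1 (j d (u τ.2.1))) (τ.1.1 τ.2.1) < 1 / (τ.2.2 + 1) := by
    refine (eventually_cardinal_forall (c := Order.succ c)
      (Order.lt_succ_of_le (le_max_left _ _))).2 fun τ => ?_
    have : Tendsto (fun d => j d (u τ.2.1)) F (𝓝 (e τ.2.1)) :=
      tendsto_subtype_rng.2 (tendsto_const_nhds.prodMk_nhds (L.tend F))
    have := ((φ τ.1).2.tendsto _).comp this
    rw [h2] at this
    exact this (Metric.ball_mem_nhds _ (by positivity))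
  obtain ⟨d, hd⟩ := this.exists
  have jc : Continuous (j d) := (continuous_id.prodMk continuous_const).subtype_mk _
  refine ⟨fun f => ⟨fun y => (φ f).1 (j d y), (φ f).2.comp jc⟩, (continuous_pi fun y =>
    (continuous_apply _).comp (continuous_subtype_val.comp h1)).subtype_mk _, fun f x => ?_⟩
  refine eq_of_forall_dist_le fun ε hε => ?_
  obtain ⟨n, hn⟩ := exists_nat_one_div_lt hε
  exact ((hd (f, x, n)).trans hn).le

lemma Ext.closed {Y : Type} [TopologicalSpace Y] [T35Space Y] {u : X → Y} (hu : Continuous u)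
    (H : Ext u) : IsClosed (range u) := by
  obtain ⟨φ, h1, h2⟩ := H
  refine isClosed_of_closure_subset fun y hy => ?_
  by_contra hn
  have k : ∀ g : Y → ℝ, ∀ hg : Continuous g, (φ ⟨g ∘ u, hg.comp hu⟩).1 y = g y := fun g hg =>
    closure_minimal (t := {y | (φ ⟨g ∘ u, hg.comp hu⟩).1 y = g y})
      (by rintro _ ⟨x, rfl⟩; exact h2 _ x) (isClosed_eq (φ _).2 hg) hy
  obtain ⟨n, m, a, ha⟩ := TT_ex (Ψ := fun f y => 1 - (φ f).1 y) (y := y)
    (f := ⟨(fun _ => 1) ∘ u, continuous_const.comp hu⟩) (continuous_const.sub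
    ((continuous_apply y).comp (continuous_subtype_val.comp h1))) (by
      rw [k _ continuous_const]; norm_num)
  obtain ⟨g, g1, g2, g3⟩ := CompletelyRegularSpace.completely_regular y (range (u ∘ a))
    (finite_range _).isClosed fun ⟨i, hi⟩ => hn ⟨a i, hi⟩
  have := ha ⟨(fun y => (g y : ℝ)) ∘ u, (continuous_subtype_val.comp g1).comp hu⟩ fun i => by
    have := g3 (mem_range_self i)
    simp only [comp_apply] at this
    simpa [this] using Nat.cast_add_one_pos (α := ℝ) m
  have k' := k (fun y => (g y : ℝ)) (continuous_subtype_val.comp g1)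
  simp only [k'] at this
  norm_num [g2] at this

lemma TExtral.compact [T35Space X] (H : TExtral X) : CompactSpace X :=
  ⟨isEmbedding_stoneCechUnit.isCompact_iff.2 (by
    rw [image_univ]
    exact ((H.ext isEmbedding_stoneCechUnit).closed continuous_stoneCechUnit).isCompact)⟩

lemma TExtral.cube [T35Space X] (H : TExtral X) :
    ∃ (B : Type) (e : X → B → I), Continuous e ∧ Injective e ∧ Ext e := by
  have := H.compact
  have h1 : Continuous fun x (g : C(X, I)) => g x := continuous_pi fun g => g.continuous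
  have h2 : Injective fun x (g : C(X, I)) => g x := fun x y h => by
    by_contra hn
    obtain ⟨f, hf, e⟩ := separatesPoints_continuous_of_t35Space_Icc hn
    exact e (congrFun h ⟨f, hf⟩)
  exact ⟨_, _, h1, h2, H _ _ (h1.isClosedEmbedding h2)⟩

theorem TExtral.emb [T35Space X] (H : TExtral X) (hm : ¬ MetrizableSpace X) (A : Type)
    (hA : Cardinal.mk A = Cardinal.aleph 1) : ∃ h : (A → Bool) → X, IsClosedEmbedding h := by
  have := H.compact
  obtain ⟨B, e, h1, h2, φ, h3, h4⟩ := H.cube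
  exact MP_a58584.emb hA.le (notNeg e h1 h2 φ h3 h4 hm A hA)

theorem noext {A : Type} (hA : Cardinal.mk A = Cardinal.aleph 1) {B : Type}
    {e : (A → Bool) → B → I} (h1 : Continuous e) (h2 : Injective e) : ¬ Ext e :=
  fun ⟨φ, h3, h4⟩ => notNeg e h1 h2 φ h3 h4 (notMetr hA) A hA (neg_td A)

lemma Ext.comp {Y Z : Type} [TopologicalSpace Y] [TopologicalSpace Z] {u : X → Y} {v : Y → Z}
    (h : Ext u) (h' : Ext v) : Ext (v ∘ u) := by
  obtain ⟨φ, h1, h2⟩ := h
  obtain ⟨ψ, h3, h4⟩ := h'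
  exact ⟨ψ ∘ φ, h3.comp h1, fun f x => (h4 _ _).trans (h2 f x)⟩

lemma Ext.homeo {Y : Type} [TopologicalSpace Y] (h : X ≃ₜ Y) : Ext h := by
  refine ⟨fun f => ⟨fun y => f.1 (h.symm y), f.2.comp h.symm.continuous⟩,
    Continuous.subtype_mk (continuous_pi fun y => ?_) _, fun f x => by simp⟩
  exact (continuous_apply (h.symm y)).comp continuous_subtype_val

end Pool.Agent.H.MP_a58584
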