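import Pool.Agent.H.MP_a58584.C

set_option autoImplicit false
open Set Function Topology Filter TopologicalSpace unitInterval

namespace Pool.Agent.H.MP_a58584

variable {X : Type} [TopologicalSpace X] [CompactSpace X] [T2Space X]

omit [T2Space X] in
lemma baire {B : Type} {Ψ Ψ' : CP X → (B → I) → ℝ} (c1 : ∀ g, Continuous (Ψ g))
    (c2 : ∀ g, Continuous (Ψ' g)) (c3 : ∀ y, Continuous fun g => Ψ g y)
    (c4 : ∀ y, Continuous fun g => Ψ' g y) (S : Set B) (g : CP X) {y y' : B → I}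
    (h1 : ∀ β ∈ S, y β = y' β) (h2 : Ψ g y < 1 / 3) (h3 : Ψ' g y' < 1 / 3) :
    ∃ (c : (ℕ × ℕ) × ℕ × ℕ) (z z' : B → I), z ∈ interior (Prod.fst '' TT Ψ g c.1.1 c.1.2) ∧
      z' ∈ interior (Prod.fst '' TT Ψ' g c.2.1 c.2.2) ∧ ∀ β ∈ S, z β = z' β := by
  classical
  have pw : ∀ {W : Type} [TopologicalSpace W] {u v : W → B → I}, Continuous u → Continuous v →
      Continuous fun w => S.piecewise (u w) (v w) := fun hu hv => continuous_pi fun β => by
    by_cases h : β ∈ S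
    · simp only [piecewise_eq_of_mem _ _ _ h]; fun_prop
    · simp only [piecewise_eq_of_notMem _ _ _ h]; fun_prop
  let Ω : Set ((B → I) × (B → I)) := {z | Ψ g z.1 < 1 / 3} ∩
    {z | Ψ' g (S.piecewise z.1 z.2) < 1 / 3}
  have hΩ : IsOpen Ω := (isOpen_lt ((c1 g).comp continuous_fst) continuous_const).inter
    (isOpen_lt ((c2 g).comp (pw continuous_fst continuous_snd)) continuous_const)
  let K : (ℕ × ℕ) × ℕ × ℕ → Set ((B → I) × (B → I)) := fun c =>
    Prod.fst ⁻¹' (Prod.fst '' TT Ψ g c.1.1 c.1.2) ∩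
      (fun z => S.piecewise z.1 z.2) ⁻¹' (Prod.fst '' TT Ψ' g c.2.1 c.2.2)
  have hK : ∀ c, IsClosed (K c) := fun c =>
    ((isClosedMap_fst_of_compactSpace _ (TT_closed c1 _ _ _)).preimage continuous_fst).inter
      ((isClosedMap_fst_of_compactSpace _ (TT_closed c2 _ _ _)).preimage
        (pw continuous_fst continuous_snd))
  obtain ⟨z, z1, z2⟩ := (dense_iUnion_interior_of_closed (f := fun c => K c ∪ Ωᶜ)
    (fun c => (hK c).union hΩ.isClosed_compl) (eq_univ_of_forall fun z => by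
      by_cases hz : z ∈ Ω
      · obtain ⟨n, m, a, ha⟩ := TT_ex (c3 _) hz.1
        obtain ⟨n', m', b, hb⟩ := TT_ex (c4 _) hz.2
        exact mem_iUnion.2 ⟨((n, m), n', m'), Or.inl ⟨⟨_, ha, rfl⟩, ⟨_, hb, rfl⟩⟩⟩
      · exact mem_iUnion.2 ⟨0, Or.inr hz⟩)).inter_open_nonempty Ω hΩ ⟨(y, y'), by
        have : S.piecewise y y' = y' := funext fun β => by
          by_cases h : β ∈ S
          · rw [piecewise_eq_of_mem _ _ _ h, h1 β h]
          · rw [piecewise_eq_of_notMem _ _ _ h]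
        exact ⟨h2, by simpa [this] using h3⟩⟩
  obtain ⟨c, hc⟩ := mem_iUnion.1 z2
  have hz : K c ∈ 𝓝 z := by
    filter_upwards [mem_interior_iff_mem_nhds.1 hc, hΩ.mem_nhds z1] with w w1 w2 using
      w1.resolve_right fun h => h w2
  refine ⟨c, z.1, S.piecewise z.1 z.2, mem_interior_iff_mem_nhds.2 ?_,
    mem_interior_iff_mem_nhds.2 ?_, fun β hβ => (piecewise_eq_of_mem _ _ _ hβ).symm⟩
  · filter_upwards [(Continuous.prodMk_left z.2).continuousAt.preimage_mem_nhds (x := z.1) hz]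
      with w hw using hw.1
  · filter_upwards [((pw continuous_id continuous_const).prodMk
      (pw continuous_const continuous_id)).continuousAt.preimage_mem_nhds
        (f := fun w => (S.piecewise w z.1, S.piecewise z.2 w))
        (x := S.piecewise z.1 z.2) (t := K c) (by
          have : (S.piecewise (S.piecewise z.1 z.2) z.1, S.piecewise z.2
              (S.piecewise z.1 z.2)) = z := by
            ext β <;> by_cases h : β ∈ S <;> simp [h]
          rwa [this])] with w hw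
    have := hw.2
    rwa [mem_preimage, show S.piecewise (S.piecewise w z.1) (S.piecewise z.2 w) = w by
      ext β; by_cases h : β ∈ S <;> simp [h]] at this

lemma dep {A : Type} (hA : Cardinal.mk A = Cardinal.aleph 1) (H : Neg A X) {B : Type}
    (φ : CP X → CP (B → I)) (hφ : Continuous φ) : ∃ S : Set B, S.Countable ∧
      ∀ f y y', (∀ β ∈ S, y β = y' β) → (φ f).1 y = (φ f).1 y' := by
  by_contra hn
  push Not at hn
  let Ψ : ℚ × ℚ → CP X → (B → I) → ℝ := fun r g y => ((φ g).1 y - r.1) / r.2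
  let Ψ' : ℚ × ℚ → CP X → (B → I) → ℝ := fun r g y => 1 - Ψ r g y
  have c1 : ∀ r g, Continuous (Ψ r g) := fun r g => ((φ g).2.sub continuous_const).div_const _
  have c2 : ∀ r g, Continuous (Ψ' r g) := fun r g => continuous_const.sub (c1 r g)
  have c3 : ∀ r y, Continuous fun g => Ψ r g y := fun r y =>
    (((continuous_apply y).comp (continuous_subtype_val.comp hφ)).sub continuous_const).div_const _
  have c4 : ∀ r y, Continuous fun g => Ψ' r g y := fun r y => continuous_const.sub (c3 r y)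
  obtain ⟨p, k, q, hq, h⟩ := delta
    (P := {p : CP X × (ℕ × ℚ × ℚ) × (ℕ × ℕ) × ℕ × ℕ // ∀ x, |p.1.1 x| ≤ p.2.1.1})
    (fun p => interior (Prod.fst '' TT (Ψ p.1.2.1.2) p.1.1 p.1.2.2.1.1 p.1.2.2.1.2))
    (fun p => interior (Prod.fst '' TT (Ψ' p.1.2.1.2) p.1.1 p.1.2.2.2.1 p.1.2.2.2.2))
    (fun p => p.1.2) (fun _ => isOpen_interior) (fun _ => isOpen_interior)
    (fun p => Set.disjoint_left.2 fun y h1 h2 => by
      obtain ⟨z, hz, rfl⟩ := interior_subset h1
      obtain ⟨⟨_, b⟩, hz', rfl⟩ := interior_subset h2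
      obtain ⟨i, -, -, h⟩ := TT_conf (y := z.1) (a := z.2) (b := b) hz hz'
      have : (0 : ℝ) < 1 / (p.1.2.2.1.2 + 1) := by positivity
      simp only [sub_self, abs_zero] at h
      linarith)
    (fun S hS => by
      obtain ⟨g, y, y', h1, h2⟩ : ∃ g y y', (∀ β ∈ S, y β = y' β) ∧ (φ g).1 y < (φ g).1 y' := by
        obtain ⟨g, y, y', h1, h2⟩ := hn S hS
        rcases h2.lt_or_gt with h | h
        · exact ⟨g, y, y', h1, h⟩
        · exact ⟨g, y', y, fun β hβ => (h1 β hβ).symm, h⟩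
      obtain ⟨a, a1, a2⟩ := exists_rat_btwn h2
      obtain ⟨b, b1, b2⟩ := exists_rat_btwn a2
      have hb : (0 : ℝ) < 3 * (b - a) := by linarith
      obtain ⟨c, z, z', h⟩ := baire (c1 (2 * a - b, 3 * (b - a))) (c2 (2 * a - b, 3 * (b - a)))
        (c3 _) (c4 _) S g h1 (by
          simp only [Ψ]; push_cast; rw [div_lt_iff₀ hb]; linarith) (by
          simp only [Ψ', Ψ]; push_cast; rw [sub_lt_comm, lt_div_iff₀ hb]; linarith)
      obtain ⟨M, hM⟩ := (isCompact_range g.2.abs).bddAbove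
      obtain ⟨n, hn⟩ := exists_nat_ge M
      exact ⟨⟨(g, (n, 2 * a - b, 3 * (b - a)), c), fun x => (hM ⟨x, rfl⟩).trans hn⟩, z, z', h⟩)
    A hA.le
  have hM : (0 : ℝ) < 2 * k.1.1 + 1 := by positivity
  refine chain (n := k.2.1.1) (n' := k.2.2.1) (η := 1 / ((k.2.1.2 : ℝ) + 1) / (2 * k.1.1 + 1))
    (fun hc => ?_) H (by positivity) (fun α x => ((p α).1.1.1 x + k.1.1) / (2 * k.1.1 + 1))
    (fun α x => ?_)
    (fun α => {z | (q z.1, z.2) ∈ TT (Ψ k.1.2) (p α).1.1 k.2.1.1 k.2.1.2})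
    (fun α => {z | (q z.1, z.2) ∈ TT (Ψ' k.1.2) (p α).1.1 k.2.2.1 k.2.2.2})
    (fun α => (TT_closed (c1 _) _ _ _).preimage (by fun_prop))
    (fun α => (TT_closed (c2 _) _ _ _).preimage (by fun_prop)) (fun α t ht => ?_)
    (fun α t ht => ?_) fun α β t a b ha hb => ?_
  · have := Cardinal.mk_le_aleph0_iff.2 (countable_univ_iff.1 hc)
    rw [hA] at this
    exact this.not_gt Cardinal.aleph0_lt_aleph_one
  · have := (p α).2 x
    rw [(h α).1, abs_le] at this
    exact ⟨div_nonneg (by linarith [this.1]) hM.le, (div_le_one hM).2 (by linarith [this.2])⟩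
  · have := interior_subset (((h α).2 t).1 ht)
    rw [(h α).1] at this
    obtain ⟨⟨y, a⟩, hz, e⟩ := this
    exact ⟨a, by rwa [mem_ofPred_eq, ← e]⟩
  · have := interior_subset (((h α).2 t).2 ht)
    rw [(h α).1] at this
    obtain ⟨⟨y, a⟩, hz, e⟩ := this
    exact ⟨a, by rwa [mem_ofPred_eq, ← e]⟩
  · obtain ⟨i, j, e1, e2⟩ := TT_conf ha hb
    refine ⟨i, j, e1, ?_⟩
    rw [← sub_div, abs_div, abs_of_pos hM, add_sub_add_right_eq_sub]
    exact div_le_div_of_nonneg_right e2 hM.le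

theorem network {A : Type} (hA : Cardinal.mk A = Cardinal.aleph 1) (H : Neg A X) {B : Type}
    (φ : CP X → CP (B → I)) (hφ : Continuous φ) : ∃ 𝒩 : Set (Set (CP (B → I))), 𝒩.Countable ∧
      ∀ x ∈ range φ, ∀ U : Set (CP (B → I)), IsOpen U → x ∈ U →
        ∃ N ∈ 𝒩, x ∈ N ∧ N ⊆ U ∩ range φ := by
  classical
  obtain ⟨S, hS, h⟩ := dep hA H φ hφ
  have := hS.to_subtype
  let ρ : (B → I) → S → I := fun y β => y β
  refine ⟨(fun F => {g ∈ range φ | ∀ p ∈ F, ∀ y, ρ y ∈ p.1 → g.1 y ∈ p.2}) ''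
    {F : Set (Set (S → I) × Set ℝ) | F.Finite ∧ F ⊆ countableBasis (S → I) ×ˢ countableBasis ℝ},
    (countable_ofPred_finite_subset ((countable_countableBasis _).prod
      (countable_countableBasis _))).image _, ?_⟩
  rintro _ ⟨f, rfl⟩ U hU hf
  obtain ⟨s, hs, hs'⟩ := (mem_nhds_subtype _ _ _).1 (hU.mem_nhds hf)
  rw [nhds_pi, Filter.mem_pi] at hs
  obtain ⟨F, h1, t, h2, h3⟩ := hs
  let e : (S → I) → B → I := fun s β => if h : β ∈ S then s ⟨β, h⟩ else 0
  have ec : Continuous e := continuous_pi fun β => by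
    by_cases h : β ∈ S
    · simp only [e, dif_pos h]; fun_prop
    · simp only [e, dif_neg h]; fun_prop
  have he : ∀ y, (φ f).1 (e (ρ y)) = (φ f).1 y := fun y =>
    h f _ _ fun β hβ => by simp [e, ρ, hβ]
  have : ∀ y, ∃ p ∈ countableBasis (S → I) ×ˢ countableBasis ℝ, ρ y ∈ p.1 ∧ p.2 ⊆ t y ∧
      ∀ z, ρ z ∈ p.1 → (φ f).1 z ∈ p.2 := fun y => by
    obtain ⟨W, w1, w2, w3⟩ := (isBasis_countableBasis ℝ).mem_nhds_iff.1 (h2 y)
    obtain ⟨V, v1, v2, v3⟩ := (isBasis_countableBasis (S → I)).exists_subset_of_mem_open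
      (a := ρ y) (u := ((φ f).1 ∘ e) ⁻¹' W) (by rwa [mem_preimage, comp_apply, he])
      ((isOpen_of_mem_countableBasis w1).preimage ((φ f).2.comp ec))
    exact ⟨(V, W), ⟨v1, w1⟩, v2, w3, fun z hz => he z ▸ v3 hz⟩
  choose p p1 p2 p3 p4 using this
  refine ⟨_, ⟨p '' F, ⟨h1.image _, by rintro _ ⟨y, -, rfl⟩; exact p1 y⟩, rfl⟩,
    ⟨⟨f, rfl⟩, by rintro _ ⟨y, -, rfl⟩; exact p4 y⟩, fun g hg => ⟨hs' (h3 fun y hy =>
      p3 y (hg.2 _ ⟨y, hy, rfl⟩ y (p2 y))), hg.1⟩⟩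

end Pool.Agent.H.MP_a58584
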